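import Mathlib
import Pool.Agent.Q267.ChapU

/-!
# The Legendre-symbol Toeplitz determinant of order `(p-5)/2`

For `p ≡ 3 (mod 4)`, `p ≥ 7`, the determinant of `[x + ((j-k)/p)]`, `0 ≤ j, k ≤ (p-7)/2`, is
`⌊(p-2)/3⌋² x`. With `m = (p-1)/2`, the Toeplitz matrix `B` of order `m - 1` has determinant `1`
(library `Helper184.Chapman`); if `B v = e_last`, the determinant in question is `x (∑ v_j)²`. The
finite Fourier transform turns the system `B v = e_last` into a factorization `F = P q`, where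
`P = ∏ (t - (k/p) ζ^k)`, `q` has degree `4`, and the low and high odd coefficients of `F` vanish;
this determines `q`, and the value `F(-1)` gives `∑ v_j = ± ((3/p) + p - 3) / 3`.
-/

namespace Pool.Agent.Results.MP_f45d88_nt.OrderPMinusFive

open Polynomial Pool.Agent.Q267.ChapU Pool.Agent.Helper184.Chapman

/-- For every prime `p ≡ 3 (mod 4)`, `p ≥ 7`, the determinant of the matrix
`[x + ((j-k)/p)]`, `0 ≤ j, k < (p-5)/2`, over `ℤ[x]` equals `⌊(p-2)/3⌋² x`. -/
theorem result (p : ℕ) [Fact p.Prime] (hp : p % 4 = 3) (hp7 : 7 ≤ p) :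
    Matrix.det (Matrix.of fun j k : Fin ((p - 5) / 2) =>
      (X : ℤ[X]) + C (legendreSym p ((j : ℤ) - (k : ℤ)))) = C ((((p - 2) / 3 : ℕ) : ℤ) ^ 2) * X := by
  obtain ⟨m, hm⟩ : ∃ m, p = 2 * m + 1 := ⟨p / 2, by omega⟩
  have hn : (p - 5) / 2 = m - 2 := by omega
  rw [hn]
  -- the value of `(3/p)`
  have h3ne : (3 : ZMod p) ≠ 0 := by
    intro h
    have : ((3 : ℕ) : ZMod p) = 0 := by exact_mod_cast h
    rw [ZMod.natCast_eq_zero_iff] at this
    have := Nat.le_of_dvd (by norm_num) this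
    omega
  have hp3 : p % 3 ≠ 0 := by
    intro h
    have h4 : 3 ∣ p := Nat.dvd_of_mod_eq_zero h
    have := (Nat.prime_dvd_prime_iff_eq Nat.prime_three (Fact.out : p.Prime)).1 h4
    omega
  have hval : (p : ℤ) - 3 + quadraticChar (ZMod p) 3 = 3 * (((p - 2) / 3 : ℕ) : ℤ) := by
    have h := det_int_m2 (p := p) hp hm (by omega) 1
    have h4 : (3 : ℤ) ∣ ((p : ℤ) - 3 + quadraticChar (ZMod p) 3) := by
      have h5 : (3 : ℤ) ∣ ((p : ℤ) - 3 + quadraticChar (ZMod p) 3) ^ 2 :=
        ⟨3 * (T p ℤ (m - 2) + Matrix.of (fun _ _ => 1)).det, by linarith⟩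
      exact Int.prime_three.dvd_of_dvd_pow h5
    rcases quadraticChar_dichotomy h3ne with h6 | h6
    · rw [h6] at h4 ⊢; omega
    · rw [h6] at h4 ⊢; omega
  apply Polynomial.funext
  intro r
  rw [eval_mul, eval_C, eval_X, ← Polynomial.coe_evalRingHom, RingHom.map_det]
  have h := det_int_m2 (p := p) hp hm (by omega) r
  have e : (Polynomial.evalRingHom r).mapMatrix (Matrix.of fun j k : Fin (m - 2) =>
      (X : ℤ[X]) + C (legendreSym p ((j : ℤ) - (k : ℤ))))
      = T p ℤ (m - 2) + Matrix.of (fun _ _ => r) := by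
    ext j k
    simp [T, legendreSym, add_comm]
  rw [e]
  rw [hval] at h
  linarith

end Pool.Agent.Results.MP_f45d88_nt.OrderPMinusFive
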